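import Pool.Agent.Y227.SG.Class

set_option autoImplicit false

namespace Pool.Agent.Results.MP_dea706_ag.NonReducedEverywhere

open Pool.Agent.Y227.SG

universe u v w

/-- The complete answer to the question for which `n` and `m` the determinantal polynomials
generate the vanishing ideal of the singular `m`-tuples of `n × n` matrices.

* Over every algebraically closed field `K` the ideal `J` generated by the determinantal
  polynomials is equal to the ideal `I` of all polynomials vanishing on the singular tuples if and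
  only if `n ≤ 1` or `m ≤ 2`.
* Over every nonzero commutative ring `A` and for `n ≥ 2`, `m ≥ 3` the ideal `coeffIdeal A n m`
  generated by the coefficients of `det (t₁X₁ + ⋯ + t_mX_m)` is not radical: some polynomial
  outside it has its square in it.  If `A` is reduced then `coeffIdeal A n m` is radical in all
  other cases.
* Over every infinite field `K` one has `J = coeffIdeal K n m`, and `J` is strictly smaller than
  `I` for `n ≥ 2`, `m ≥ 3`. -/
theorem result :
    (∀ (K : Type u) [Field K] [IsAlgClosed K] (n m : ℕ),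
      J K n m = I K n m ↔ n ≤ 1 ∨ m ≤ 2) ∧
    (∀ (A : Type v) [CommRing A] [Nontrivial A] (n m : ℕ),
      (2 ≤ n → 3 ≤ m → ∃ F : CoordRing A n m, F ∉ coeffIdeal A n m ∧ F ^ 2 ∈ coeffIdeal A n m) ∧
      (IsReduced A → n ≤ 1 ∨ m ≤ 2 → (coeffIdeal A n m).IsRadical)) ∧
    (∀ (K : Type w) [Field K] [Infinite K] (n m : ℕ),
      J K n m = coeffIdeal K n m ∧ (2 ≤ n → 3 ≤ m → J K n m < I K n m)) := by
  refine ⟨fun K _ _ n m => J_eq_I_iff K n m, fun A _ _ n m => ⟨fun hn hm => exists_sq A hn hm,
    fun _ h => (coeffIdeal_isRadical_iff A n m).2 h⟩, fun K _ _ n m => ⟨J_eq_coeffIdeal K n m,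
    fun hn hm => lt_of_le_of_ne (J_le_I K n m) fun h => ?_⟩⟩
  obtain ⟨F, hF, hF2⟩ := exists_sq K hn hm
  rw [← J_eq_coeffIdeal, h] at hF hF2
  exact hF (I_isRadical K n m ⟨2, hF2⟩)

end Pool.Agent.Results.MP_dea706_ag.NonReducedEverywhere
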